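import Mathlib
import Pool.Agent.H13.UniqueBoth

namespace Pool.Agent.Results.MP_618f8d_co.Q1

open Pool.Agent.H13.Unique Filter Topology

theorem result : ∀ c : ℝ, c < 1 → Tendsto (prob c) atTop (𝓝 1) :=
  Pool.Agent.H13.UniqueBoth.main.1

end Pool.Agent.Results.MP_618f8d_co.Q1
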