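import Mathlib
import Pool.Agent.H13.UniqueBoth

namespace Pool.Agent.Results.MP_618f8d_co.Q2

open Pool.Agent.H13.Unique Filter Topology

theorem result : ∃ c : ℝ, 0 < c ∧ ∃ n₀ : ℕ, ∀ n : ℕ, n₀ ≤ n → ∃ G : SimpleGraph (Fin n),
    Nat.card G.edgeSet = m n ∧ c * 2 ^ m n ≤ (u G : ℝ) :=
  Pool.Agent.H13.UniqueBoth.main.2.2

end Pool.Agent.Results.MP_618f8d_co.Q2
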